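import Pool.Agent.Results.MP_3122b6_ag.PrimePersistence
import Pool.Agent.Run7.h514.LS.Exch

/-!
# Hypergraph Lovász–Saks–Schrijver ideals: the complete intersection property persists in `d`

Q1 of the page. Let `L_H(d)` be generated by a regular sequence `g`. In the polynomial ring with one more
column `z` of variables the sequence `z, g` is regular and generates the ideal of `z` and the `f_A^{(d+1)}`. In
the local ring at the origin the elements of a regular sequence can be exchanged for elements which are part of a
minimal set of generators of the same ideal; the `f_A^{(d+1)}` are such elements, because `E` is a clutter.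
So they form a regular sequence in the local ring, and also in the polynomial ring, since they are homogeneous.

The definitions `edgePoly`, `lss`, `IsClutter`, `IsCompleteIntersection` are those of the starting file
`PrimePersistence` (which answers Q2).
-/

set_option autoImplicit false

open MvPolynomial RingTheory.Sequence Run7.h514.LS

namespace Pool.Agent.Results.MP_3122b6_ag.CompleteIntersectionPersists

open Pool.Agent.Results.MP_3122b6_ag.PrimePersistence

variable {k : Type*} [Field k] {V : Type*} [DecidableEq V] {d : ℕ} {E : Set (Finset V)}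

lemma pi_iota (x : MvPolynomial (V × Fin d) k) : piH k d (iotaH k d x) = x := by
  have h : (piH k d).comp (iotaH k d) = RingHom.id (MvPolynomial (V × Fin d) k) := by
    apply MvPolynomial.ringHom_ext
    · intro a
      rw [RingHom.comp_apply, iotaH_C, piH_C, RingHom.id_apply]
    · rintro ⟨v, j⟩
      rw [RingHom.comp_apply, iotaH_X, piH_castSucc, RingHom.id_apply]
  exact congrArg (fun f => f x) h

lemma const_pi (x : MvPolynomial (V × Fin (d + 1)) k) :
    constantCoeff (piH k d x) = constantCoeff x := by
  have h : (constantCoeff : MvPolynomial (V × Fin d) k →+* k).comp (piH k d) = constantCoeff := by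
    apply MvPolynomial.ringHom_ext
    · intro a
      rw [RingHom.comp_apply, piH_C, constantCoeff_C, constantCoeff_C]
    · rintro ⟨v, j⟩
      rw [RingHom.comp_apply]
      refine Fin.lastCases ?_ (fun j => ?_) j
      · rw [piH_last, map_zero, constantCoeff_X]
      · rw [piH_castSucc, constantCoeff_X, constantCoeff_X]
  exact congrArg (fun f => f x) h

lemma sub_iota_pi (B : Ideal (MvPolynomial (V × Fin (d + 1)) k))
    (hX : ∀ v : V, (X (v, Fin.last d) : MvPolynomial (V × Fin (d + 1)) k) ∈ B)
    (t : MvPolynomial (V × Fin (d + 1)) k) : t - iotaH k d (piH k d t) ∈ B := by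
  have h1 : (Ideal.Quotient.mk B).comp ((iotaH k d).comp (piH k d)) = Ideal.Quotient.mk B := by
    apply MvPolynomial.ringHom_ext
    · intro a
      rw [RingHom.comp_apply, RingHom.comp_apply, piH_C, iotaH_C]
    · rintro ⟨v, j⟩
      rw [RingHom.comp_apply, RingHom.comp_apply]
      refine Fin.lastCases ?_ (fun j => ?_) j
      · rw [piH_last, map_zero, map_zero]
        exact (Ideal.Quotient.eq_zero_iff_mem.2 (hX v)).symm
      · rw [piH_castSucc, iotaH_X]
  have h4 := congrArg (fun f => f t) h1
  simp only [RingHom.comp_apply] at h4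
  rw [← Ideal.Quotient.eq_zero_iff_mem, map_sub, h4, sub_self]

/-- the list of the variables of the last column -/
noncomputable def zl (k : Type*) [Field k] {V : Type*} (d : ℕ) (l : List V) :
    List (MvPolynomial (V × Fin (d + 1)) k) :=
  l.map fun v => X (v, Fin.last d)

lemma zl_regular (hE : IsClutter E) (hd : 1 ≤ d) (l : List V) (hl : l.Nodup) :
    IsWeaklyRegular (MvPolynomial (V × Fin (d + 1)) k) (zl k d l) := by
  classical
  induction l using List.reverseRecOn with
  | nil => exact IsWeaklyRegular.nil _ _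
  | append_singleton l v ih =>
    have hnd' := List.nodup_append.1 hl
    have hof : Ideal.ofList (zl k d l) = Ideal.span (gens k d {u | u ∈ l} (∅ : Set (Finset V))) := by
      unfold Ideal.ofList zl gens
      congr 1
      ext x
      simp
    unfold zl at *
    rw [List.map_append, List.map_singleton, wr_concat]
    refine ⟨ih hnd'.1, fun y hy => ?_⟩
    rw [hof] at hy ⊢
    refine ((prime_vars (k := k) (d := d) {u | u ∈ l}).mem_or_mem hy).resolve_left ?_
    refine X_notMem hE hd ?_ (Set.empty_subset E)
    intro hv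
    exact hnd'.2.2 v hv v (by simp) rfl

lemma all_regular (hE : IsClutter E) (hd : 1 ≤ d) (l : List V) (hl : l.Nodup) (hall : ∀ v, v ∈ l)
    (rs : List (MvPolynomial (V × Fin d) k))
    (hrs : IsWeaklyRegular (MvPolynomial (V × Fin d) k) rs) :
    IsWeaklyRegular (MvPolynomial (V × Fin (d + 1)) k) (zl k d l ++ rs.map (iotaH k d)) := by
  induction rs using List.reverseRecOn with
  | nil => simpa using zl_regular hE hd l hl
  | append_singleton rs r ih =>
    rw [wr_concat] at hrs
    rw [List.map_append, List.map_singleton, ← List.append_assoc, wr_concat]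
    refine ⟨ih hrs.1, fun y hy => ?_⟩
    have hle : Ideal.ofList (zl k d l ++ rs.map (iotaH k d)) ≤ (Ideal.ofList rs).comap (piH k d) := by
      rw [Ideal.ofList_append]
      refine sup_le ?_ ?_
      · refine Ideal.span_le.2 ?_
        intro x hx
        obtain ⟨v, -, rfl⟩ := List.mem_map.1 hx
        rw [SetLike.mem_coe, Ideal.mem_comap, piH_last]
        exact Ideal.zero_mem _
      · refine Ideal.span_le.2 ?_
        intro x hx
        obtain ⟨w, hw, rfl⟩ := List.mem_map.1 hx
        rw [SetLike.mem_coe, Ideal.mem_comap, pi_iota]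
        exact Ideal.subset_span hw
    have h1 := hle hy
    rw [Ideal.mem_comap, map_mul, pi_iota] at h1
    have h2 := hrs.2 _ h1
    have h3 : iotaH k d (piH k d y) ∈ Ideal.ofList (rs.map (iotaH k d)) := by
      rw [← Ideal.map_ofList]
      exact Ideal.mem_map_of_mem _ h2
    have hz : ∀ v, (X (v, Fin.last d) : MvPolynomial (V × Fin (d + 1)) k) ∈ zl k d l :=
      fun v => List.mem_map.2 ⟨v, hall v, rfl⟩
    have h4 : y - iotaH k d (piH k d y) ∈ Ideal.ofList (zl k d l) :=
      sub_iota_pi _ (fun v => Ideal.subset_span (hz v)) y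
    rw [Ideal.ofList_append]
    have h5 : y = (y - iotaH k d (piH k d y)) + iotaH k d (piH k d y) := by ring
    rw [h5]
    exact Ideal.add_mem _ (Ideal.mem_sup_left h4) (Ideal.mem_sup_right h3)

lemma all_eq (l : List V) (hall : ∀ v, v ∈ l) (rs : List (MvPolynomial (V × Fin d) k)) :
    Ideal.ofList (zl k d l ++ rs.map (iotaH k d)) = (Ideal.ofList rs).comap (piH k d) := by
  apply le_antisymm
  · rw [Ideal.ofList_append]
    refine sup_le ?_ ?_
    · refine Ideal.span_le.2 ?_
      intro x hx
      obtain ⟨v, -, rfl⟩ := List.mem_map.1 hx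
      rw [SetLike.mem_coe, Ideal.mem_comap, piH_last]
      exact Ideal.zero_mem _
    · refine Ideal.span_le.2 ?_
      intro x hx
      obtain ⟨w, hw, rfl⟩ := List.mem_map.1 hx
      rw [SetLike.mem_coe, Ideal.mem_comap, pi_iota]
      exact Ideal.subset_span hw
  · intro y hy
    rw [Ideal.mem_comap] at hy
    have h3 : iotaH k d (piH k d y) ∈ Ideal.ofList (rs.map (iotaH k d)) := by
      rw [← Ideal.map_ofList]
      exact Ideal.mem_map_of_mem _ hy
    have hz : ∀ v, (X (v, Fin.last d) : MvPolynomial (V × Fin (d + 1)) k) ∈ zl k d l :=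
      fun v => List.mem_map.2 ⟨v, hall v, rfl⟩
    have h4 : y - iotaH k d (piH k d y) ∈ Ideal.ofList (zl k d l) :=
      sub_iota_pi _ (fun v => Ideal.subset_span (hz v)) y
    rw [Ideal.ofList_append]
    have h5 : y = (y - iotaH k d (piH k d y)) + iotaH k d (piH k d y) := by ring
    rw [h5]
    exact Ideal.add_mem _ (Ideal.mem_sup_left h4) (Ideal.mem_sup_right h3)

lemma lss_le_orig (hE : ∀ A ∈ E, A.Nonempty) : lss k d E ≤ orig (V × Fin d) k := by
  refine Ideal.span_le.2 ?_
  rintro _ ⟨A, hA, rfl⟩
  exact constantCoeff_edgePoly (hE A hA)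

/-- No generator is in the ideal of the other ones plus the maximal ideal times the whole ideal. -/
lemma minimal [Finite V] (hE : IsClutter E) (hd : 1 ≤ d) {A : Finset V} (hA : A ∈ E)
    {W : Set (Finset V)} (hW : W ⊆ E) (hAW : A ∉ W) (u : MvPolynomial (V × Fin d) k)
    (hu : constantCoeff u ≠ 0) :
    u * edgePoly k d A ∉ lss k d W ⊔ orig (V × Fin d) k * lss k d E := by
  intro h
  have hsplit : lss k d E = lss k d (E \ {A}) ⊔ Ideal.span {edgePoly k d A} := by
    unfold lss
    rw [← Ideal.span_union]
    congr 1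
    ext x
    constructor
    · rintro ⟨B, hB, rfl⟩
      by_cases hBA : B = A
      · exact Or.inr (by rw [hBA]; rfl)
      · exact Or.inl ⟨B, ⟨hB, hBA⟩, rfl⟩
    · rintro (⟨B, hB, rfl⟩ | hx)
      · exact ⟨B, hB.1, rfl⟩
      · exact ⟨A, hA, (Set.mem_singleton_iff.1 hx).symm⟩
  have hle : lss k d W ⊔ orig (V × Fin d) k * lss k d E ≤
      lss k d (E \ {A}) ⊔ orig (V × Fin d) k * Ideal.span {edgePoly k d A} := by
    refine sup_le ?_ ?_
    · refine le_trans (Ideal.span_mono (Set.image_mono ?_)) le_sup_left
      intro B hB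
      exact ⟨hW hB, fun h0 => hAW (h0 ▸ hB)⟩
    · rw [hsplit, Ideal.mul_sup]
      exact sup_le_sup_right Ideal.mul_le_right _
  obtain ⟨y, hy, z, hz, hyz⟩ := Submodule.mem_sup.1 (hle h)
  obtain ⟨a, ha, rfl⟩ := Ideal.mem_mul_span_singleton.1 hz
  have h1 : (u - a) * edgePoly k d A ∈ lss k d (E \ {A}) := by
    have : (u - a) * edgePoly k d A = y := by
      linear_combination -hyz
    rw [this]
    exact hy
  have ha0 : constantCoeff a = 0 := ha
  have h2 : edgePoly k d A ∈ lss k d (E \ {A}) := by
    refine cancel (r := u - a) ?_ ?_ h1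
    · rintro _ ⟨B, -, rfl⟩
      exact ⟨_, edgePoly_isHomogeneous B⟩
    · rw [map_sub, ha0, sub_zero]
      exact hu
  exact edgePoly_notMem_lss (W := E \ {A}) hE hd hA Set.sdiff_subset (fun h0 => h0.2 rfl) h2

/-- **Q1**: for a field `k`, a finite set `V`, a clutter `E` of nonempty subsets of `V` and `d ≥ 1`, if
`L_H(d)` is a complete intersection, then `L_H(d+1)` is a complete intersection. -/
theorem result (k : Type*) [Field k] (V : Type*) [Finite V] [DecidableEq V]
    (E : Set (Finset V)) (hE : IsClutter E) (d : ℕ) (hd : 1 ≤ d)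
    (hC : IsCompleteIntersection (lss k d E)) : IsCompleteIntersection (lss k (d + 1) E) := by
  classical
  have hfV : Fintype V := Fintype.ofFinite V
  obtain ⟨rs, hrs, hrsE⟩ := hC
  set l : List V := Finset.univ.toList with hl
  have hlnd : l.Nodup := Finset.nodup_toList _
  have hall : ∀ v, v ∈ l := fun v => Finset.mem_toList.2 (Finset.mem_univ v)
  set gl := zl k d l ++ rs.map (iotaH k d) with hgl
  have h1 : IsWeaklyRegular (MvPolynomial (V × Fin (d + 1)) k) gl :=
    all_regular hE hd l hlnd hall rs hrs.1
  have h2 : Ideal.ofList gl = (lss k d E).comap (piH k d) := by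
    rw [hgl, all_eq l hall rs, hrsE]
  set P := orig (V × Fin (d + 1)) k with hP
  set R := Localization.AtPrime P with hR
  set φ := algebraMap (MvPolynomial (V × Fin (d + 1)) k) R with hφ
  have hnoe : IsNoetherianRing R :=
    IsLocalization.isNoetherianRing P.primeCompl R inferInstance
  have h3 : IsWeaklyRegular R (gl.map φ) := IsWeaklyRegular.of_isLocalization R P.primeCompl h1
  set J : Ideal (MvPolynomial (V × Fin (d + 1)) k) := (lss k d E).comap (piH k d) with hJ
  have h4 : Ideal.ofList (gl.map φ) = J.map φ := by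
    rw [← Ideal.map_ofList, h2]
  have hJP : J ≤ P := by
    intro x hx
    have h5 := lss_le_orig hE.1 (Ideal.mem_comap.1 hx)
    have h6 : constantCoeff (piH k d x) = 0 := h5
    rw [const_pi] at h6
    exact h6
  have hmax : P.map φ = IsLocalRing.maximalIdeal R := Localization.AtPrime.map_eq_maximalIdeal
  have h5 : J.map φ ≤ IsLocalRing.maximalIdeal R := by
    rw [← hmax]
    exact Ideal.map_mono hJP
  have hfin := Set.toFinite E
  set el : List (Finset V) := hfin.toFinset.toList with hel
  have heln : el.Nodup := Finset.nodup_toList _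
  have hele : ∀ A, A ∈ el ↔ A ∈ E := by
    intro A
    rw [hel, Finset.mem_toList, Set.Finite.mem_toFinset]
  have hmemJ : ∀ A ∈ E, edgePoly k (d + 1) A ∈ J := by
    intro A hA
    rw [hJ, Ideal.mem_comap, piH_edgePoly (hE.1 A hA)]
    exact Ideal.subset_span ⟨A, hA, rfl⟩
  obtain ⟨gl', h6, -⟩ := exch (J.map φ) (gl.map φ) h3 h4 h5
    ((el.map (edgePoly k (d + 1))).map φ) (by
      intro f hf
      obtain ⟨g, hg, rfl⟩ := List.mem_map.1 hf
      obtain ⟨A, hA, rfl⟩ := List.mem_map.1 hg
      exact Ideal.mem_map_of_mem _ (hmemJ A ((hele A).1 hA))) (by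
      intro l1 f l2 hdec hmem
      obtain ⟨g1, g2, e1, e2, e3⟩ := List.map_eq_append_iff.1 hdec
      obtain ⟨g, g3, e4, e5, e6⟩ := List.map_eq_cons_iff.1 e3
      obtain ⟨a1, a2, e7, e8, e9⟩ := List.map_eq_append_iff.1 e1
      rw [e4] at e9
      obtain ⟨A, a3, e10, e11, e12⟩ := List.map_eq_cons_iff.1 e9
      rw [← e2, ← Ideal.map_ofList, ← hmax, ← Ideal.map_mul, ← Ideal.map_sup, ← e5] at hmem
      obtain ⟨u, hu, h7⟩ := mem_of_loc _ _ hmem
      have hAE : A ∈ E := by
        rw [← hele, e7, e10]
        simp
      have hsub : {B | B ∈ a1} ⊆ E := by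
        intro B hB
        rw [← hele, e7]
        exact List.mem_append_left _ hB
      have hnot : A ∉ {B | B ∈ a1} := by
        intro hA1
        rw [e7, e10] at heln
        exact (List.nodup_append.1 heln).2.2 A hA1 A (by simp) rfl
      refine minimal hE hd hAE hsub hnot (piH k d u) (by rw [const_pi]; exact hu) ?_
      have hle : Ideal.ofList g1 ⊔ P * J ≤
          (lss k d {B | B ∈ a1} ⊔ orig (V × Fin d) k * lss k d E).comap (piH k d) := by
        refine sup_le ?_ ?_
        · rw [← e8]
          refine Ideal.span_le.2 ?_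
          intro x hx
          obtain ⟨B, hB, rfl⟩ := List.mem_map.1 hx
          rw [SetLike.mem_coe, Ideal.mem_comap, piH_edgePoly (hE.1 B (hsub hB))]
          exact Ideal.mem_sup_left (Ideal.subset_span ⟨B, hB, rfl⟩)
        · rw [Ideal.mul_le]
          intro r hr s hs
          rw [Ideal.mem_comap, map_mul]
          refine Ideal.mem_sup_right (Ideal.mul_mem_mul ?_ hs)
          show constantCoeff (piH k d r) = 0
          rw [const_pi]
          exact hr
      have h8 := hle h7
      rw [Ideal.mem_comap, map_mul, ← e11, piH_edgePoly (hE.1 A hAE)] at h8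
      exact h8)
  have h7 : IsWeaklyRegular R ((el.map (edgePoly k (d + 1))).map φ) :=
    ((isWeaklyRegular_append_iff R _ _).1 h6).1
  have h8 : IsWeaklyRegular (MvPolynomial (V × Fin (d + 1)) k) (el.map (edgePoly k (d + 1))) := by
    refine descend _ ?_ h7
    intro f hf
    obtain ⟨A, -, rfl⟩ := List.mem_map.1 hf
    exact ⟨_, edgePoly_isHomogeneous A⟩
  have hof : Ideal.ofList (el.map (edgePoly k (d + 1))) = lss k (d + 1) E := by
    unfold lss Ideal.ofList
    congr 1
    ext x
    simp only [List.mem_map, Set.mem_setOf_eq, Set.mem_image, hele]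
  refine ⟨el.map (edgePoly k (d + 1)), ⟨h8, ?_⟩, hof⟩
  rw [hof, smul_eq_mul, Ideal.mul_top]
  intro htop
  have h9 := lss_le_orig (k := k) (d := d + 1) hE.1
  rw [← htop] at h9
  exact (inferInstance : (orig (V × Fin (d + 1)) k).IsPrime).ne_top (top_le_iff.1 h9)

end Pool.Agent.Results.MP_3122b6_ag.CompleteIntersectionPersists
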